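import Mathlib

namespace Pool.Agent.Results.MP_020ed8_lc.Upper

open Finset

/-- Some schedule processes every job infinitely often and keeps every gap of job `i` within
`f i` days. -/
def Feasible {n : ℕ} (f p : Fin n → ℕ) : Prop :=
  ∃ S : ℕ → Fin n, ∀ i, {t | S t = i}.Infinite ∧ ∀ a b, a < b → S a = i → S b = i →
    (∀ t, a < t → t < b → S t ≠ i) → ∑ t ∈ Ioc a b, p (S t) ≤ f i

noncomputable def rho {n : ℕ} (f p : Fin n → ℕ) : ℝ := ∑ i, (p i : ℝ) / f i

noncomputable def mu {n : ℕ} (f p : Fin n → ℕ) : ℝ :=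
  ⨆ i : {i : Fin n // i.val + 1 < n},
    ((∑ j ∈ Iic i.1, f i.1 / f j * p j + (Ioi i.1).sup p : ℕ) : ℝ) / f i.1

theorem gap {n : ℕ} {f p : Fin n → ℕ} {S : ℕ → Fin n} {i : Fin n} (h : {t | S t = i}.Infinite)
    (g : ∀ a b, a < b → S a = i → S b = i → (∀ t, a < t → t < b → S t ≠ i) →
      ∑ t ∈ Ioc a b, p (S t) ≤ f i) :
    ∃ N, ∀ u v, N ≤ u → u ≤ v → (∀ t, u ≤ t → t < v → S t ≠ i) →
      ∑ t ∈ range v, p (S t) + p i ≤ f i + ∑ t ∈ range u, p (S t) := by
  obtain ⟨a0, h0⟩ := h.nonempty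
  refine ⟨a0 + 1, fun u v hu uv k => ?_⟩
  have ex : ∃ b, v ≤ b ∧ S b = i := by
    obtain ⟨b, e, l⟩ := h.exists_gt v
    exact ⟨b, l.le, e⟩
  have hb := Nat.find_spec ex
  have ha : S (Nat.findGreatest (fun t => S t = i) (u - 1)) = i :=
    Nat.findGreatest_spec (P := fun t => S t = i) (m := a0) (by omega) h0
  have la := Nat.findGreatest_le (P := fun t => S t = i) (u - 1)
  have ga := fun t => Nat.findGreatest_is_greatest (P := fun t => S t = i) (n := u - 1) (k := t)
  have gb := fun t => Nat.find_min ex (m := t)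
  generalize Nat.findGreatest (fun t => S t = i) (u - 1) = a at *
  generalize Nat.find ex = b at *
  have := g a b (by omega) ha hb.2 fun t x y => by
    by_cases c : t < u
    · exact ga t x (by omega)
    by_cases d : t < v
    · exact k t (by omega) d
    · exact fun e => gb t y ⟨by omega, e⟩
  have s : insert b (Ico u v) ⊆ Ioc a b := fun t ht => by
    simp only [mem_insert, mem_Ico, mem_Ioc] at ht ⊢
    omega
  have s2 := sum_le_sum_of_subset (f := fun t => p (S t)) s
  rw [sum_insert (by simp; omega), hb.2] at s2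
  have := sum_range_add_sum_Ico (fun t => p (S t)) uv
  omega

theorem result : ∃ (n : ℕ) (f p : Fin n → ℕ), 1 ≤ n ∧ (∀ i, 0 < f i ∧ 0 < p i) ∧ Monotone f ∧
    max (rho f p) (mu f p) < 641 / 1000 ∧ ¬Feasible f p := by
  refine ⟨4, ![2780, 5342, 7123, 1000000], ![781, 1000, 1000, 1000], by omega, by decide,
    by decide, max_lt ?_ ?_, ?_⟩
  · simp [rho, Fin.sum_univ_four]; norm_num
  · haveI : Nonempty {i : Fin 4 // i.val + 1 < 4} := ⟨⟨0, by decide⟩⟩
    refine lt_of_le_of_lt (ciSup_le fun i => ?_) (by norm_num : (6408 / 10000 : ℝ) < _)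
    have : ∀ i : {i : Fin 4 // i.val + 1 < 4},
        (∑ j ∈ Iic i.1, ![2780, 5342, 7123, 1000000] i.1 / ![2780, 5342, 7123, 1000000] j *
          ![781, 1000, 1000, 1000] j + (Ioi i.1).sup ![781, 1000, 1000, 1000]) * 10000 ≤
          6408 * ![2780, 5342, 7123, 1000000] i.1 ∧ 0 < ![2780, 5342, 7123, 1000000] i.1 := by
      decide +kernel
    rw [div_le_div_iff₀ (by exact_mod_cast (this i).2) (by norm_num)]
    exact_mod_cast (this i).1
  rintro ⟨S, h⟩
  obtain ⟨N0, g0⟩ := gap (h 0).1 (h 0).2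
  obtain ⟨N1, g1⟩ := gap (h 1).1 (h 1).2
  obtain ⟨N2, g2⟩ := gap (h 2).1 (h 2).2
  generalize hp : (![781, 1000, 1000, 1000] : Fin 4 → ℕ) = p at *
  have p0 : p 0 = 781 := by rw [← hp]; rfl
  have p1 : ∀ i, i ≠ 0 → p i = 1000 := by rw [← hp]; decide
  simp only [Matrix.cons_val] at g0 g1 g2
  rw [p0] at g0
  rw [p1 1 (by decide)] at g1
  rw [p1 2 (by decide)] at g2
  have inf : {t | S t ≠ 0}.Infinite := (h 3).1.mono fun t e => by
    simp only [Set.mem_setOf_eq] at e ⊢
    rw [e]; decide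
  let l := Nat.nth fun t => S t ≠ 0
  have sm : StrictMono l := Nat.nth_strictMono inf
  have lm : ∀ k, S (l k) ≠ 0 := Nat.nth_mem_of_infinite inf
  have su : ∀ t, S t ≠ 0 → ∃ k, l k = t := fun t e => by
    have := Nat.range_nth_of_infinite inf
    exact (this ▸ e : t ∈ Set.range l)
  have mono : ∀ u v, u ≤ v → ∑ t ∈ range u, p (S t) ≤ ∑ t ∈ range v, p (S t) := fun u v e =>
    sum_le_sum_of_subset (range_mono e)
  have one : ∀ k, ∑ t ∈ range (l k + 1), p (S t) = ∑ t ∈ range (l k), p (S t) + 1000 := fun k => by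
    rw [sum_range_succ, p1 _ (lm k)]
  have B : ∀ k, N0 ≤ k → ∑ t ∈ range (l k), p (S t) + 1781 ≤ ∑ t ∈ range (l (k + 1)), p (S t) := by
    intro k hk
    have lt : l k < l (k + 1) := sm (Nat.lt_succ_self k)
    by_cases z : S (l k + 1) = 0
    · have ne : l (k + 1) ≠ l k + 1 := fun e => lm (k + 1) (e ▸ z)
      have := mono (l k + 1 + 1) (l (k + 1)) (by omega)
      rw [sum_range_succ, one, z, p0] at this
      omega
    · have := g0 (l k) (l k + 1 + 1) (hk.trans sm.le_apply) (by omega) fun t x y => by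
        rcases (by omega : t = l k ∨ t = l k + 1) with e | e
        · exact e ▸ lm k
        · exact e ▸ z
      rw [sum_range_succ, one, p1 _ z] at this
      omega
  have av : ∀ (i : Fin 4) k m, i ≠ 0 → (∀ j, k < j → j < m → S (l j) ≠ i) →
      ∀ t, l k + 1 ≤ t → t < l m → S t ≠ i := fun i k m i0 c t x y e => by
    obtain ⟨j, rfl⟩ := su t (e ▸ i0)
    exact c j (sm.lt_iff_lt.1 x) (sm.lt_iff_lt.1 y) e
  have two : ∀ k, N0 + N1 ≤ k → S (l (k + 1)) = 1 ∨ S (l (k + 2)) = 1 := fun k hk => by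
    by_contra c
    push Not at c
    have := g1 (l k + 1) (l (k + 3)) (by have := sm.le_apply (x := k); omega)
      (sm (by omega : k < k + 3)) (av 1 k (k + 3) (by decide) fun j x y => by
        rcases (by omega : j = k + 1 ∨ j = k + 2) with e | e <;> simp [e, c])
    have := one k; have := B k (by omega); have := B (k + 1) (by omega)
    have := B (k + 2) (by omega)
    simp only [add_assoc, Nat.reduceAdd] at *
    omega
  obtain ⟨t, e, lt⟩ := (h 3).1.exists_gt (l (N0 + N1 + N2 + 2))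
  have e : S t = 3 := e
  obtain ⟨j, rfl⟩ := su t (by rw [e]; decide)
  have := sm.lt_iff_lt.1 lt
  obtain ⟨k, rfl⟩ : ∃ k, j = k + 2 := ⟨j - 2, by omega⟩
  have a := (two k (by omega)).resolve_right (by rw [e]; decide)
  have b := (two (k + 1) (by omega)).resolve_left (by rw [e]; decide)
  have := g2 (l k + 1) (l (k + 4)) (by have := sm.le_apply (x := k); omega)
    (sm (by omega : k < k + 4)) (av 2 k (k + 4) (by decide) fun j x y => by
      rcases (by omega : j = k + 1 ∨ j = k + 2 ∨ j = k + 1 + 2) with c | c | c <;>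
        rw [c] <;> simp only [a, b, e] <;> decide)
  have := one k; have := B k (by omega); have := B (k + 1) (by omega)
  have := B (k + 2) (by omega); have := B (k + 3) (by omega)
  simp only [add_assoc, Nat.reduceAdd] at *
  omega

end Pool.Agent.Results.MP_020ed8_lc.Upper
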